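import Pool.Agent.H10.T.Univ
import Pool.Agent.H10.W.SIGN

/-!
# One relator which joins two groups
-/

set_option autoImplicit false

namespace Pool.Agent.H10.T.Amalg

open Pool.Agent.H10.Inj (LocInd)
open Pool.Agent.H10.W

theorem closure_inv {Γ : Type} [Group Γ] (x y : Γ) (hy : y ∈ Subsemigroup.closure {x}) :
    y⁻¹ ∈ Subsemigroup.closure ({x⁻¹} : Set Γ) ∧ y ∈ Subsemigroup.closure {x} := by
  induction hy using Subsemigroup.closure_induction with
  | mem z hz =>
    rw [Set.mem_singleton_iff] at hz
    subst hz
    exact ⟨Subsemigroup.subset_closure rfl, Subsemigroup.subset_closure rfl⟩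
  | mul a b _ _ iha ihb =>
    refine ⟨?_, mul_mem iha.2 ihb.2⟩
    -- all elements are powers of `x`
    have key : ∀ z ∈ Subsemigroup.closure ({x} : Set Γ), Commute x z := by
      intro z hz
      induction hz using Subsemigroup.closure_induction with
      | mem u hu => rw [Set.mem_singleton_iff] at hu; rw [hu]
      | mul u v _ _ ihu ihv => exact ihu.mul_right ihv
    have key2 : ∀ z ∈ Subsemigroup.closure ({x} : Set Γ), ∀ z' ∈
        Subsemigroup.closure ({x} : Set Γ), Commute z z' := by
      intro z hz z' hz'
      induction hz using Subsemigroup.closure_induction with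
      | mem u hu => rw [Set.mem_singleton_iff] at hu; rw [hu]; exact key z' hz'
      | mul u v _ _ ihu ihv => exact ihu.mul_left ihv
    rw [(key2 a iha.2 b ihb.2).eq, mul_inv_rev]
    exact mul_mem iha.1 ihb.1

theorem one_notMem {Γ : Type} [Group Γ] (h : LocInd Γ) (x : Γ) (hx : x ≠ 1) :
    (1 : Γ) ∉ Subsemigroup.closure ({x} : Set Γ) := by
  obtain ⟨σ, hσ⟩ := SIGN.main Γ h 1 (fun _ => x) (fun _ => hx)
  intro h1
  apply hσ
  have hr : (Set.range fun j : Fin 1 => if σ j = true then x else x⁻¹) =
      {if σ 0 = true then x else x⁻¹} := by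
    ext z
    simp only [Set.mem_range, Set.mem_singleton_iff]
    constructor
    · rintro ⟨j, rfl⟩
      rw [Subsingleton.elim j 0]
    · rintro rfl
      exact ⟨0, rfl⟩
  rw [hr]
  split_ifs with hs
  · exact h1
  · have := (closure_inv x 1 h1).1
    rwa [inv_one] at this

theorem transfer {J : Type} {K : J → Type} [∀ j, Group (K j)] (N N' : Subgroup (Monoid.CoprodI K))
    [N.Normal] [N'.Normal] (h : N = N') (H : LocInd (Monoid.CoprodI K ⧸ N) ∧
      ∀ j, Function.Injective ((QuotientGroup.mk' N).comp (Monoid.CoprodI.of (M := K) (i := j)))) :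
    LocInd (Monoid.CoprodI K ⧸ N') ∧
      ∀ j, Function.Injective ((QuotientGroup.mk' N').comp (Monoid.CoprodI.of (M := K) (i := j))) := by
  subst h
  exact H

theorem of_l {J : Type} {K : J → Type} [∀ j, Group (K j)] (y : Σ j, K j) (j : J) (x : K j)
    (h : y = ⟨j, x⟩) : Monoid.CoprodI.of (M := K) y.2 = Monoid.CoprodI.of x := by
  subst h
  rfl

/-- The system with two letters. -/
def two {J : Type} {K : J → Type} {R : Type} [∀ j, Group (K j)] (γ δ : R → J)
    (c : ∀ r, K (γ r)) (d : ∀ r, K (δ r)) : Sys J K R where
  n _ := 2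
  l r k := if k = 0 then ⟨γ r, c r⟩ else ⟨δ r, (d r)⁻¹⟩

theorem two_word {J : Type} {K : J → Type} {R : Type} [∀ j, Group (K j)] (γ δ : R → J)
    (c : ∀ r, K (γ r)) (d : ∀ r, K (δ r)) (r : R) :
    (two γ δ c d).word r = Monoid.CoprodI.of (c r) * Monoid.CoprodI.of (d r)⁻¹ := by
  have h0 := of_l (((two γ δ c d).l r 0)) (γ r) (c r) rfl
  have h1 := of_l (((two γ δ c d).l r 1)) (δ r) (d r)⁻¹ rfl
  rw [← h0, ← h1]
  have h2 : (two γ δ c d).n r = 2 := rfl
  simp only [Sys.word, h2, List.range_succ, List.range_zero, List.nil_append,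
        List.cons_append, List.map_cons, List.map_nil, List.prod_cons, List.prod_nil, mul_one]

theorem two_test {J : Type} {K : J → Type} {R : Type} [∀ j, Group (K j)] (γ δ : R → J)
    (c : ∀ r, K (γ r)) (d : ∀ r, K (δ r)) (hloc : ∀ j, LocInd (K j)) (hc : ∀ r, c r ≠ 1)
    (hd : ∀ r, d r ≠ 1) (hR : Subsingleton R) (hne : ∀ r, γ r ≠ δ r) :
    (two γ δ c d).Test (fun _ _ => true) (fun _ _ => 1) := by
  classical
  refine ⟨?_, ?_, ?_⟩
  · intro i
    have hsub : ∀ x ∈ (two γ δ c d).Pos (fun _ _ => true) i,
        ∀ y ∈ (two γ δ c d).Pos (fun _ _ => true) i, x = y := by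
      rintro x ⟨r, j, hj, h | h⟩ y ⟨r', j', hj', h' | h'⟩
      · have hrr : r = r' := Subsingleton.elim _ _
        subst hrr
        have h1 := h.2
        have h2 := h'.2
        simp only [two] at h1 h2
        by_cases e : j = 0 <;> by_cases e' : j' = 0
        · rw [if_pos e] at h1; rw [if_pos e'] at h2
          have := h1.symm.trans h2
          exact eq_of_heq (Sigma.mk.inj this).2
        · rw [if_pos e] at h1; rw [if_neg e'] at h2
          exact absurd ((Sigma.mk.inj h1).1.trans (Sigma.mk.inj h2).1.symm) (hne r)
        · rw [if_neg e] at h1; rw [if_pos e'] at h2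
          exact absurd ((Sigma.mk.inj h2).1.trans (Sigma.mk.inj h1).1.symm) (hne r)
        · rw [if_neg e] at h1; rw [if_neg e'] at h2
          have := h1.symm.trans h2
          exact eq_of_heq (Sigma.mk.inj this).2
      · exact absurd h'.1 (by simp)
      · exact absurd h.1 (by simp)
      · exact absurd h.1 (by simp)
    have hne1 : ∀ x ∈ (two γ δ c d).Pos (fun _ _ => true) i, x ≠ 1 := by
      rintro x ⟨r, j, hj, h | h⟩
      · have h1 := h.2
        simp only [two] at h1
        by_cases e : j = 0
        · rw [if_pos e] at h1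
          obtain ⟨h2, h3⟩ := Sigma.mk.inj h1
          subst h2
          rw [← eq_of_heq h3]
          exact hc r
        · rw [if_neg e] at h1
          obtain ⟨h2, h3⟩ := Sigma.mk.inj h1
          subst h2
          rw [← eq_of_heq h3]
          exact inv_ne_one.2 (hd r)
      · exact absurd h.1 (by simp)
    rcases Set.eq_empty_or_nonempty ((two γ δ c d).Pos (fun _ _ => true) i) with h0 | ⟨x, hx⟩
    · rw [h0, Subsemigroup.closure_empty]
      exact fun h => h
    · have : (two γ δ c d).Pos (fun _ _ => true) i = {x} := by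
        ext y
        exact ⟨fun hy => hsub y hy x hx, fun hy => by rw [Set.mem_singleton_iff.1 hy]; exact hx⟩
      rw [this]
      exact one_notMem (hloc i) x (hne1 x hx)
  · intro r
    simp [two]
  · intro T hT hlt hcard
    obtain ⟨⟨r, j0⟩, hx0⟩ := hT
    have hsub : T ⊆ {(r, 0), (r, 1)} := by
      rintro ⟨r', j⟩ hx
      have h1 := hlt _ hx
      simp only [two] at h1
      have hrr : r' = r := Subsingleton.elim _ _
      subst hrr
      have : j = 0 ∨ j = 1 := by omega
      rcases this with rfl | rfl <;> simp
    have hv0t : (two γ δ c d).vert (fun _ _ => true) (r, 0) true = (γ r, true) := by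
      simp [Sys.vert, two]
    have hv0f : (two γ δ c d).vert (fun _ _ => true) (r, 0) false = (δ r, false) := by
      simp [Sys.vert, two, Sys.prev]
    have hv1t : (two γ δ c d).vert (fun _ _ => true) (r, 1) true = (δ r, true) := by
      simp [Sys.vert, two]
    have hv1f : (two γ δ c d).vert (fun _ _ => true) (r, 1) false = (γ r, false) := by
      simp [Sys.vert, two, Sys.prev]
    have hT2 : T = {(r, 0), (r, 1)} := by
      by_contra hT2
      have hcase : T = {(r, 0)} ∨ T = {(r, 1)} := by
        by_cases h0 : (r, 0) ∈ T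
        · by_cases h1 : (r, 1) ∈ T
          · exact absurd (Finset.Subset.antisymm hsub (by
              intro y hy
              simp only [Finset.mem_insert, Finset.mem_singleton] at hy
              rcases hy with rfl | rfl
              · exact h0
              · exact h1)) hT2
          · left
            ext y
            rw [Finset.mem_singleton]
            refine ⟨fun hy => ?_, fun hy => hy ▸ h0⟩
            have := hsub hy
            simp only [Finset.mem_insert, Finset.mem_singleton] at this
            rcases this with h | h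
            · exact h
            · exact absurd (h ▸ hy) h1
        · right
          ext y
          rw [Finset.mem_singleton]
          have hmem : ∀ y ∈ T, y = (r, 1) := by
            intro y hy
            have := hsub hy
            simp only [Finset.mem_insert, Finset.mem_singleton] at this
            rcases this with h | h
            · exact absurd (h ▸ hy) h0
            · exact h
          refine ⟨fun hy => hmem y hy, fun hy => ?_⟩
          rw [hy, ← hmem _ hx0]
          exact hx0
      rcases hcase with hT3 | hT3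
      · apply hcard (γ r)
        rw [Finset.card_eq_one]
        refine ⟨((r, 0), true), ?_⟩
        ext ⟨x, t⟩
        simp only [Finset.mem_filter, Finset.mem_product, Finset.mem_univ, and_true,
          Finset.mem_singleton, hT3, Prod.mk.injEq]
        constructor
        · rintro ⟨rfl, h⟩
          cases t
          · rw [hv0f] at h
            exact absurd h.symm (hne r)
          · exact ⟨rfl, rfl⟩
        · rintro ⟨rfl, rfl⟩
          exact ⟨rfl, by rw [hv0t]⟩
      · apply hcard (δ r)
        rw [Finset.card_eq_one]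
        refine ⟨((r, 1), true), ?_⟩
        ext ⟨x, t⟩
        simp only [Finset.mem_filter, Finset.mem_product, Finset.mem_univ, and_true,
          Finset.mem_singleton, hT3, Prod.mk.injEq]
        constructor
        · rintro ⟨rfl, h⟩
          cases t
          · rw [hv1f] at h
            exact absurd h (hne r)
          · exact ⟨rfl, rfl⟩
        · rintro ⟨rfl, rfl⟩
          exact ⟨rfl, by rw [hv1t]⟩
    have himg : ({(γ r, true), (δ r, false), (δ r, true), (γ r, false)} : Finset (J × Bool)) ⊆
        ((T ×ˢ (Finset.univ : Finset Bool)).image fun y =>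
          (two γ δ c d).vert (fun _ _ => true) y.1 y.2) := by
      have h0 : (r, 0) ∈ T := by rw [hT2]; simp
      have h1 : (r, 1) ∈ T := by rw [hT2]; simp
      intro v hv
      simp only [Finset.mem_insert, Finset.mem_singleton] at hv
      rw [Finset.mem_image]
      rcases hv with rfl | rfl | rfl | rfl
      · exact ⟨((r, 0), true), Finset.mem_product.2 ⟨h0, Finset.mem_univ _⟩, hv0t⟩
      · exact ⟨((r, 0), false), Finset.mem_product.2 ⟨h0, Finset.mem_univ _⟩, hv0f⟩
      · exact ⟨((r, 1), true), Finset.mem_product.2 ⟨h1, Finset.mem_univ _⟩, hv1t⟩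
      · exact ⟨((r, 1), false), Finset.mem_product.2 ⟨h1, Finset.mem_univ _⟩, hv1f⟩
    have h4 : ({(γ r, true), (δ r, false), (δ r, true), (γ r, false)} : Finset (J × Bool)).card
        = 4 := by
      have h5 := hne r
      have h6 := (hne r).symm
      rw [Finset.card_insert_of_notMem, Finset.card_insert_of_notMem,
        Finset.card_insert_of_notMem, Finset.card_singleton]
      all_goals simp [h5, h6]
    have h7 := Finset.card_le_card himg
    rw [h4] at h7
    have h8 : T.card ≤ 2 := (Finset.card_le_card hsub).trans Finset.card_le_two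
    have h9 : (∑ x ∈ T, (1 : ℝ)) ≤ 2 := by
      rw [Finset.sum_const, nsmul_eq_mul, mul_one]
      exact_mod_cast h8
    have h10 : (4 : ℝ) ≤ (((T ×ˢ (Finset.univ : Finset Bool)).image fun y =>
          (two γ δ c d).vert (fun _ _ => true) y.1 y.2).card : ℝ) := by exact_mod_cast h7
    have h11 : (∑ x ∈ T, (1 : ℝ)) + 2 ≤ (((T ×ˢ (Finset.univ : Finset Bool)).image fun y =>
          (two γ δ c d).vert (fun _ _ => true) y.1 y.2).card : ℝ) := by linarith
    exact h11

theorem main : S_AMALG := by
  classical
  intro J K R _ P γ δ κ c d w hP hloc hc hd hR hγδ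
  -- conjugate letters
  have hex : ∀ r, ∃ (c' : K (γ r)) (d' : K (δ r)) (u : Monoid.CoprodI K), c' ≠ 1 ∧ d' ≠ 1 ∧
      P.word r = u * (Monoid.CoprodI.of c' * Monoid.CoprodI.of d'⁻¹) * u⁻¹ := by
    intro r
    have hword : P.word r = Monoid.CoprodI.of (c r) * Monoid.CoprodI.of (w r) *
        Monoid.CoprodI.of (d r)⁻¹ * Monoid.CoprodI.of (w r)⁻¹ := by
      rw [← of_l _ _ _ (hP.l0 r), ← of_l _ _ _ (hP.l1 r), ← of_l _ _ _ (hP.l2 r),
        ← of_l _ _ _ (hP.l3 r 3 le_rfl)]
      simp only [Sys.word, hP.n r, List.range_succ, List.range_zero, List.nil_append,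
        List.cons_append, List.map_cons, List.map_nil, List.prod_cons, List.prod_nil, mul_one,
        mul_assoc]
    obtain ⟨-, hκ | hκ⟩ := hγδ r
    · -- `w` in the group of `c`
      revert hword
      have key : ∀ (k : J) (hk : k = γ r) (w' : K k), P.word r = Monoid.CoprodI.of (c r) *
          Monoid.CoprodI.of w' * Monoid.CoprodI.of (d r)⁻¹ * Monoid.CoprodI.of w'⁻¹ →
          ∃ (c' : K (γ r)) (d' : K (δ r)) (u : Monoid.CoprodI K), c' ≠ 1 ∧ d' ≠ 1 ∧
          P.word r = u * (Monoid.CoprodI.of c' * Monoid.CoprodI.of d'⁻¹) * u⁻¹ := by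
        rintro k rfl w' hw
        refine ⟨w'⁻¹ * c r * w', d r, Monoid.CoprodI.of w', ?_, hd r, ?_⟩
        · intro h
          apply hc r
          have h1 : c r = w' * (w'⁻¹ * c r * w') * w'⁻¹ := by group
          rw [h1, h]; group
        · rw [hw]
          simp only [map_mul, map_inv]
          group
      exact key (κ r) hκ (w r)
    · revert hword
      have key : ∀ (k : J) (hk : k = δ r) (w' : K k), P.word r = Monoid.CoprodI.of (c r) *
          Monoid.CoprodI.of w' * Monoid.CoprodI.of (d r)⁻¹ * Monoid.CoprodI.of w'⁻¹ →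
          ∃ (c' : K (γ r)) (d' : K (δ r)) (u : Monoid.CoprodI K), c' ≠ 1 ∧ d' ≠ 1 ∧
          P.word r = u * (Monoid.CoprodI.of c' * Monoid.CoprodI.of d'⁻¹) * u⁻¹ := by
        rintro k rfl w' hw
        refine ⟨c r, w' * d r * w'⁻¹, 1, hc r, ?_, ?_⟩
        · intro h
          apply hd r
          have h1 : d r = w'⁻¹ * (w' * d r * w'⁻¹) * w' := by group
          rw [h1, h]; group
        · rw [hw]
          simp only [map_mul, map_inv]
          group
      exact key (κ r) hκ (w r)
  choose c' d' u hc' hd' hu using hex
  have hN : Subgroup.normalClosure (Set.range (two γ δ c' d').word) =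
      Subgroup.normalClosure (Set.range P.word) := by
    apply le_antisymm
    · refine Subgroup.normalClosure_le_normal ?_
      rintro _ ⟨r, rfl⟩
      have h1 : P.word r ∈ Subgroup.normalClosure (Set.range P.word) :=
        Subgroup.subset_normalClosure ⟨r, rfl⟩
      have h2 := (inferInstance : (Subgroup.normalClosure (Set.range P.word)).Normal).conj_mem
        _ h1 (u r)⁻¹
      rw [SetLike.mem_coe, two_word]
      rw [hu r] at h2
      convert h2 using 1
      group
    · refine Subgroup.normalClosure_le_normal ?_
      rintro _ ⟨r, rfl⟩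
      have h1 : (two γ δ c' d').word r ∈
          Subgroup.normalClosure (Set.range (two γ δ c' d').word) :=
        Subgroup.subset_normalClosure ⟨r, rfl⟩
      have h2 := (inferInstance :
        (Subgroup.normalClosure (Set.range (two γ δ c' d').word)).Normal).conj_mem _ h1 (u r)
      rw [SetLike.mem_coe, hu r]
      rwa [two_word] at h2
  exact transfer _ _ hN (test (two γ δ c' d') (fun _ _ => true) (fun _ _ => 1)
    (two_test γ δ c' d' hloc hc' hd' hR fun r => (hγδ r).1) hloc)

end Pool.Agent.H10.T.Amalg
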