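import Pool.Agent.H10.T.Univ

/-!
# The coarse system
-/

set_option autoImplicit false

namespace Pool.Agent.H10.T.Coarse

open Pool.Agent.H10.W Pool.Agent.H10.T.Univ

variable {I J : Type} {K : I → Type} {R : Type} [∀ i, Group (K i)]

/-- The homomorphisms from the groups of the family to the coarse group. -/
noncomputable def f (P : Sys I K R) (b : I → J) (i : I) : K i →* (co P b).Grp :=
  ((co P b).inc (b i)).comp ((on P {i' | b i' = b i}).inc ⟨i, rfl⟩)

theorem f_eq (P : Sys I K R) (b : I → J) (i : I) (j : J) (h : b i = j) (x : K i) :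
    f P b i x = (co P b).inc j ((on P {i' | b i' = j}).inc ⟨i, h⟩ x) := by
  subst h
  rfl

theorem f_rel (P : Sys I K R) (b : I → J) (r : R) :
    ((List.range (P.n r)).map fun k => f P b (P.l r k).1 (P.l r k).2).prod = 1 := by
  by_cases h : ∃ j, ∀ k, b (P.l r k).1 = j
  · obtain ⟨j, hj⟩ := h
    have h1 := prod_inc (on P {i' | b i' = j}) ⟨r, hj⟩
    have h2 := congrArg ((co P b).inc j) h1
    rw [map_list_prod, List.map_map, map_one] at h2
    rw [← h2]
    congr 1
    apply List.map_congr_left
    intro k _
    exact f_eq P b (P.l r k).1 j (hj k) (P.l r k).2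
  · exact prod_inc (co P b) ⟨r, h⟩

/-- The homomorphisms from the groups of the coarse blocks. -/
noncomputable def g (P : Sys I K R) (b : I → J) (j : J) : Kc P b j →* P.Grp :=
  lift (on P {i' | b i' = j}) (fun i => P.inc i) (fun r => prod_inc P r)

theorem g_inc (P : Sys I K R) (b : I → J) (j : J) (i : {i' | b i' = j}) (x : K i) :
    g P b j ((on P {i' | b i' = j}).inc i x) = P.inc i x :=
  lift_inc (on P {i' | b i' = j}) (fun i => P.inc i) (fun r => prod_inc P r) i x

theorem g_rel (P : Sys I K R) (b : I → J) (r : {r // ¬ ∃ j, ∀ k, b (P.l r k).1 = j}) :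
    ((List.range ((co P b).n r)).map fun k =>
      g P b ((co P b).l r k).1 ((co P b).l r k).2).prod = 1 := by
  rw [← prod_inc P r]
  congr 1

theorem main : S_COARSE := by
  intro I J K R _ P b
  refine ⟨lift P (f P b) (f_rel P b), ?_, fun i x => lift_inc P (f P b) (f_rel P b) i x⟩
  have hψ : (lift (co P b) (g P b) (g_rel P b)).comp (lift P (f P b) (f_rel P b)) =
      MonoidHom.id _ := by
    apply hom_ext
    intro i x
    rw [MonoidHom.comp_apply, lift_inc, f, MonoidHom.comp_apply, lift_inc, g_inc]
    rfl
  exact Function.LeftInverse.injective (g := lift (co P b) (g P b) (g_rel P b))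
    (fun x => DFunLike.congr_fun hψ x)

end Pool.Agent.H10.T.Coarse
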