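import Pool.Agent.H10.W.Main

/-!
# Injective labelled forests of locally indicable groups: definitions and statements of the parts
-/

set_option autoImplicit false

namespace Pool.Agent.H10.T

open Pool.Agent.H10.Inj (LocInd LOG Sparse Signed Inner Outer)
open Pool.Agent.H10.W

/-- The subsystem on the subset `S` of the index set: the relators which are words in the elements of
the groups `K i`, `i ∈ S`. -/
def on {I : Type} {K : I → Type} {R : Type} (P : Sys I K R) (S : Set I) :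
    Sys S (fun i => K i) {r // ∀ k, (P.l r k).1 ∈ S} where
  n r := P.n r
  l r k := ⟨⟨(P.l r k).1, r.2 k⟩, (P.l r k).2⟩

variable {I : Type} {K : I → Type} {R : Type} [∀ i, Group (K i)]

/-- The groups of the coarse blocks. -/
abbrev Kc {J : Type} (P : Sys I K R) (b : I → J) (j : J) : Type := (on P {i | b i = j}).Grp

/-- The coarse system: a relator for every relator which is not a word in the elements of one coarse
block. -/
noncomputable def co {J : Type} (P : Sys I K R) (b : I → J) :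
    Sys J (Kc P b) {r // ¬ ∃ j, ∀ k, b (P.l r k).1 = j} where
  n r := P.n r
  l r k := ⟨b (P.l r k).1, (on P {i | b i = b (P.l r k).1}).inc ⟨(P.l r k).1, rfl⟩ (P.l r k).2⟩

/-- Stub T-COARSE: the group embeds in the group of the coarse system. -/
def S_COARSE : Prop :=
  ∀ (I J : Type) (K : I → Type) (R : Type) [∀ i, Group (K i)] (P : Sys I K R) (b : I → J),
    ∃ φ : P.Grp →* (co P b).Grp, Function.Injective φ ∧
      ∀ (i : I) (x : K i), φ (P.inc i x) =
        (co P b).inc (b i) ((on P {i' | b i' = b i}).inc ⟨i, rfl⟩ x)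

/-- Stub T-INF: from finite index sets to arbitrary index sets. -/
def S_INF : Prop :=
  ∀ (I : Type) (K : I → Type) (R : Type) [∀ i, Group (K i)] (P : Sys I K R),
    (∀ r k, ∃ k' < P.n r, (P.l r k').1 = (P.l r k).1) →
    (∀ I0 : Finset I, LocInd (on P (I0 : Set I)).Grp ∧
      ∀ i, Function.Injective ((on P (I0 : Set I)).inc i)) →
    LocInd P.Grp ∧ ∀ i, Function.Injective (P.inc i)

/-- The relators are `c w d⁻¹ w⁻¹`. -/
structure IsTwist (P : Sys I K R) (γ δ κ : R → I) (c : ∀ r, K (γ r)) (d : ∀ r, K (δ r))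
    (w : ∀ r, K (κ r)) : Prop where
  n : ∀ r, P.n r = 4
  l0 : ∀ r, P.l r 0 = ⟨γ r, c r⟩
  l1 : ∀ r, P.l r 1 = ⟨κ r, w r⟩
  l2 : ∀ r, P.l r 2 = ⟨δ r, (d r)⁻¹⟩
  l3 : ∀ r k, 3 ≤ k → P.l r k = ⟨κ r, (w r)⁻¹⟩

/-- Stub T-AMALG: one relator `c w d⁻¹ w⁻¹` such that `c` and `d` lie in different groups, and `w` in
one of them. -/
def S_AMALG : Prop :=
  ∀ (J : Type) (K : J → Type) (R : Type) [∀ j, Group (K j)] (P : Sys J K R) (γ δ κ : R → J)
    (c : ∀ r, K (γ r)) (d : ∀ r, K (δ r)) (w : ∀ r, K (κ r)), IsTwist P γ δ κ c d w →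
    (∀ j, LocInd (K j)) → (∀ r, c r ≠ 1) → (∀ r, d r ≠ 1) → Subsingleton R →
    (∀ r, γ r ≠ δ r ∧ (κ r = γ r ∨ κ r = δ r)) →
    LocInd P.Grp ∧ ∀ j, Function.Injective (P.inc j)

open Classical in
/-- Stub T-LINK: the link condition of the weight test for the weights `1` of the corners whose ends
have the same direction and `0` of the other corners. -/
def S_LINK : Prop :=
  ∀ (I Ty : Type) (vt : Ty → Bool → I × Bool) (T : Finset Ty), T.Nonempty →
    (∀ i : I, ((T ×ˢ (Finset.univ : Finset Bool)).filter fun y => (vt y.1 y.2).1 = i).card ≠ 1) →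
    (∀ (β : Bool) (T' : Finset Ty) (B : Finset I), T' ⊆ T → B.Nonempty →
      (∀ x ∈ T', ∀ t, (vt x t).2 = β ∧ (vt x t).1 ∈ B) → T'.card + 1 ≤ B.card) →
    ∑ x ∈ T, (if (vt x true).2 = (vt x false).2 then (1 : ℝ) else 0) + 2 ≤
      (((T ×ˢ (Finset.univ : Finset Bool)).image fun y => vt y.1 y.2).card : ℝ)

/-- Stub T-SGN: signs of finitely many nontrivial elements, with one prescribed sign. -/
def S_SGN : Prop :=
  ∀ (Γ : Type) [Group Γ], LocInd Γ → ∀ (X : Type) [Finite X] (x : X → Γ), (∀ a, x a ≠ 1) →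
    ∀ (p : X → Prop) (s : Bool), (∀ a a', p a → p a' → a = a') →
    ∃ σ : X → Bool, (∀ a, p a → σ a = s) ∧ (1 : Γ) ∉ Subsemigroup.closure
      (Set.range fun a => if σ a = true then x a else (x a)⁻¹)

/-- Stub T-PART: the partition of an injective labelled oriented forest. -/
def S_PART2 : Prop :=
  ∀ (V E : Type) [Fintype V] (L : LOG V E), Function.Injective L.lab → Sparse L.ini L.ter →
    2 ≤ Fintype.card V →
    (∃ (I : Type) (bl : V → I) (ε : I → Bool), (∀ i, ∃ v, bl v ≠ i) ∧ Signed L bl ε ∧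
      ∀ e e', Outer L bl e → Outer L bl e' → bl (L.lab e) = bl (L.lab e') → e = e') ∨
    ∃ (bl : V → Bool) (e₀ : E), bl (L.ini e₀) ≠ bl (L.ter e₀) ∧ ∀ e, e ≠ e₀ → Inner L bl e

end Pool.Agent.H10.T
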