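import Pool.Agent.H10.T.Step

/-!
# Finite index sets: the main induction
-/

set_option autoImplicit false
set_option linter.unusedSectionVars false

namespace Pool.Agent.H10.T

open Pool.Agent.H10.Inj (LocInd LOG Sparse Signed Inner Outer)
open Pool.Agent.H10.W

open Classical

variable {I : Type} {K : I → Type} {R : Type} [∀ i, Group (K i)]

section twist

variable {P : Sys I K R} {γ δ κ : R → I} {c : ∀ r, K (γ r)} {d : ∀ r, K (δ r)} {w : ∀ r, K (κ r)}

theorem IsTwist.letters (h : IsTwist P γ δ κ c d w) (r : R) (p : I → Prop) :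
    (∀ k, p (P.l r k).1) ↔ p (γ r) ∧ p (κ r) ∧ p (δ r) := by
  constructor
  · intro hp
    have h0 := hp 0
    have h1 := hp 1
    have h2 := hp 2
    rw [h.l0] at h0
    rw [h.l1] at h1
    rw [h.l2] at h2
    exact ⟨h0, h1, h2⟩
  · rintro ⟨h0, h1, h2⟩ k
    by_cases hk : 3 ≤ k
    · rw [h.l3 r k hk]; exact h1
    · interval_cases k
      · rw [h.l0]; exact h0
      · rw [h.l1]; exact h1
      · rw [h.l2]; exact h2

theorem IsTwist.mem (h : IsTwist P γ δ κ c d w) {S : Set I} (r : {r // ∀ k, (P.l r k).1 ∈ S}) :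
    γ r.1 ∈ S ∧ κ r.1 ∈ S ∧ δ r.1 ∈ S :=
  (h.letters r.1 (fun i => i ∈ S)).1 r.2

theorem sig_on {S : Set I} {z : Σ i, K i} (hz : z.1 ∈ S) {i : I} {x : K i} (h : z = ⟨i, x⟩)
    (hi : i ∈ S) : (⟨⟨z.1, hz⟩, z.2⟩ : Σ i : S, K i) = ⟨⟨i, hi⟩, x⟩ := by
  subst h
  rfl

theorem IsTwist.on (h : IsTwist P γ δ κ c d w) (S : Set I) :
    IsTwist (T.on P S) (fun r => (⟨γ r.1, (h.mem r).1⟩ : S)) (fun r => ⟨δ r.1, (h.mem r).2.2⟩)
      (fun r => ⟨κ r.1, (h.mem r).2.1⟩) (fun r => c r.1) (fun r => d r.1) (fun r => w r.1) where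
  n r := h.n r.1
  l0 r := sig_on _ (h.l0 r.1) _
  l1 r := sig_on _ (h.l1 r.1) _
  l2 r := sig_on _ (h.l2 r.1) _
  l3 r k hk := sig_on _ (h.l3 r.1 k hk) _

theorem IsTwist.co {J : Type} (h : IsTwist P γ δ κ c d w) (b : I → J) :
    IsTwist (T.co P b) (fun r => b (γ r.1)) (fun r => b (δ r.1)) (fun r => b (κ r.1))
      (fun r => (T.on P {i | b i = b (γ r.1)}).inc ⟨γ r.1, rfl⟩ (c r.1))
      (fun r => (T.on P {i | b i = b (δ r.1)}).inc ⟨δ r.1, rfl⟩ (d r.1))
      (fun r => (T.on P {i | b i = b (κ r.1)}).inc ⟨κ r.1, rfl⟩ (w r.1)) where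
  n r := h.n r.1
  l0 r := congrArg (fun z : Σ i, K i =>
    (⟨b z.1, (T.on P {i | b i = b z.1}).inc ⟨z.1, rfl⟩ z.2⟩ : Σ j, Kc P b j)) (h.l0 r.1)
  l1 r := congrArg (fun z : Σ i, K i =>
    (⟨b z.1, (T.on P {i | b i = b z.1}).inc ⟨z.1, rfl⟩ z.2⟩ : Σ j, Kc P b j)) (h.l1 r.1)
  l2 r := by
    have h1 := congrArg (fun z : Σ i, K i =>
      (⟨b z.1, (T.on P {i | b i = b z.1}).inc ⟨z.1, rfl⟩ z.2⟩ : Σ j, Kc P b j)) (h.l2 r.1)
    simp only [map_inv] at h1
    exact h1
  l3 r k hk := by
    have h1 := congrArg (fun z : Σ i, K i =>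
      (⟨b z.1, (T.on P {i | b i = b z.1}).inc ⟨z.1, rfl⟩ z.2⟩ : Σ j, Kc P b j)) (h.l3 r.1 k hk)
    simp only [map_inv] at h1
    exact h1

end twist

/-- what is proved -/
def Good (P : Sys I K R) : Prop := LocInd P.Grp ∧ ∀ i, Function.Injective (P.inc i)

theorem good_of_co (hCOARSE : S_COARSE) {J : Type} (P : Sys I K R) (b : I → J)
    (hblk : ∀ j, Good (on P {i | b i = j})) (hco : Good (co P b)) : Good P := by
  obtain ⟨φ, hφ, hφ2⟩ := hCOARSE I J K R P b
  refine ⟨LocInd.of_injective φ hφ hco.1, fun i x y hxy => ?_⟩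
  have h1 := congrArg φ hxy
  rw [hφ2, hφ2] at h1
  exact (hblk (b i)).2 ⟨i, rfl⟩ (hco.2 (b i) h1)

theorem fin_aux (hCOARSE : S_COARSE) (hLINK : S_LINK) (hSGN : S_SGN) (hAMALG : S_AMALG)
    (hPART : S_PART2) (n : ℕ) :
    ∀ (I : Type) (K : I → Type) (R : Type) [Fintype I] [∀ i, Group (K i)] (P : Sys I K R)
      (γ δ κ : R → I) (c : ∀ r, K (γ r)) (d : ∀ r, K (δ r)) (w : ∀ r, K (κ r)),
      Fintype.card I = n → IsTwist P γ δ κ c d w → (∀ i, LocInd (K i)) → (∀ r, c r ≠ 1) →
      (∀ r, d r ≠ 1) → (∀ r, w r ≠ 1) → Function.Injective κ → Sparse γ δ → Good P := by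
  induction n using Nat.strong_induction_on with
  | _ n ih =>
    intro I K R _ _ P γ δ κ c d w hn h hloc hc hd hw hκ hsp
    have hfinR : Finite R := Finite.of_injective κ hκ
    have hblk : ∀ (J : Type) (b : I → J) (j : J), (∃ i, b i ≠ j) → Good (on P {i | b i = j}) := by
      intro J b j ⟨i₀, hi₀⟩
      refine ih (Fintype.card {i : I // b i = j}) ?_ _ _ _ (on P {i | b i = j}) _ _ _ _ _ _ rfl
        (h.on {i | b i = j}) (fun i => hloc i.1) (fun r => hc r.1) (fun r => hd r.1)
        (fun r => hw r.1) (fun r r' hr => Subtype.ext (hκ (congrArg Subtype.val hr))) ?_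
      · rw [← hn]
        exact Fintype.card_subtype_lt hi₀
      · intro B D hB hD
        have h1 := hsp (B.image Subtype.val) (D.image Subtype.val) (hB.image _) (by
          intro e he
          obtain ⟨e', he', rfl⟩ := Finset.mem_image.1 he
          obtain ⟨h3, h4⟩ := hD e' he'
          exact ⟨Finset.mem_image_of_mem Subtype.val h3, Finset.mem_image_of_mem Subtype.val h4⟩)
        rwa [Finset.card_image_of_injective _ Subtype.val_injective,
          Finset.card_image_of_injective _ Subtype.val_injective] at h1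
    by_cases h2 : 2 ≤ Fintype.card I
    · rcases hPART I R ⟨γ, δ, κ⟩ hκ hsp h2 with ⟨J, b, ε, hprop, hS, huni⟩ | ⟨b, e₀, he₀, hin⟩
      · have hout : ∀ r : {r // ¬ ∃ j, ∀ k, b (P.l r k).1 = j},
            Outer (⟨γ, δ, κ⟩ : LOG I R) b r.1 := by
          intro r
          refine (hS.types r.1).resolve_left ?_
          rintro ⟨h3, h4⟩
          exact r.2 ⟨b (κ r.1), (h.letters r.1 (fun i => b i = b (κ r.1))).2 ⟨h3, rfl, h4⟩⟩
        have hb : ∀ j, Good (on P {i | b i = j}) := by
          intro j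
          obtain ⟨i, hi⟩ := hprop j
          exact hblk J b j ⟨i, hi⟩
        refine good_of_co hCOARSE P b hb ?_
        refine signed_step hLINK hSGN (co P b) (h.co b) (fun j => (hb j).1) ?_ ?_ ?_ ε ?_ ?_
        · intro r h5
          exact hc r.1 ((injective_iff_map_eq_one _).1 ((hb _).2 ⟨γ r.1, rfl⟩) _ h5)
        · intro r h5
          exact hd r.1 ((injective_iff_map_eq_one _).1 ((hb _).2 ⟨δ r.1, rfl⟩) _ h5)
        · intro r h5
          exact hw r.1 ((injective_iff_map_eq_one _).1 ((hb _).2 ⟨κ r.1, rfl⟩) _ h5)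
        · intro r r' hr
          exact Subtype.ext (huni r.1 r'.1 (hout r) (hout r') hr)
        · intro β B D hB hD
          have h1 := hS.forest β B (D.image Subtype.val) hB (by
            intro e he
            obtain ⟨e', he', rfl⟩ := Finset.mem_image.1 he
            exact ⟨hout e', hD e' he'⟩)
          rwa [Finset.card_image_of_injective _ Subtype.val_injective] at h1
      · have hb : ∀ j, Good (on P {i | b i = j}) := by
          intro j
          refine hblk Bool b j ?_
          by_contra hcon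
          push Not at hcon
          exact he₀ ((hcon _).trans (hcon _).symm)
        have he : ∀ r : {r // ¬ ∃ j, ∀ k, b (P.l r k).1 = j}, r.1 = e₀ := by
          intro r
          by_contra hne
          obtain ⟨h3, h4⟩ := hin r.1 hne
          exact r.2 ⟨b (κ r.1), (h.letters r.1 (fun i => b i = b (κ r.1))).2 ⟨h3, rfl, h4⟩⟩
        refine good_of_co hCOARSE P b hb ?_
        refine hAMALG Bool _ _ (co P b) _ _ _ _ _ _ (h.co b) (fun j => (hb j).1) ?_ ?_ ?_ ?_
        · intro r h5
          exact hc r.1 ((injective_iff_map_eq_one _).1 ((hb _).2 ⟨γ r.1, rfl⟩) _ h5)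
        · intro r h5
          exact hd r.1 ((injective_iff_map_eq_one _).1 ((hb _).2 ⟨δ r.1, rfl⟩) _ h5)
        · exact ⟨fun r r' => Subtype.ext ((he r).trans (he r').symm)⟩
        · intro r
          have h3 : b (γ r.1) ≠ b (δ r.1) := by rw [he r]; exact he₀
          refine ⟨h3, ?_⟩
          show b (κ r.1) = b (γ r.1) ∨ b (κ r.1) = b (δ r.1)
          revert h3
          cases b (κ r.1) <;> cases b (γ r.1) <;> cases b (δ r.1) <;> simp
    · have hsub : Subsingleton I := Fintype.card_le_one_iff_subsingleton.1 (by omega)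
      have hR : R → False := by
        intro r
        have h3 := hsp {γ r} {r} (Finset.singleton_nonempty _) (by
          intro e he
          rw [Finset.mem_singleton.1 he]
          exact ⟨Finset.mem_singleton_self _, Finset.mem_singleton.2 (Subsingleton.elim _ _)⟩)
        simp at h3
      refine signed_step hLINK hSGN P h hloc hc hd hw (fun _ => true) hκ ?_
      intro β B D hB hD
      have hD0 : D = ∅ := by
        rw [Finset.eq_empty_iff_forall_notMem]
        exact fun e _ => hR e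
      rw [hD0, Finset.card_empty, zero_add]
      exact hB.card_pos

/-- **Injective labelled forests of locally indicable groups.** -/
theorem main (hCOARSE : S_COARSE) (hLINK : S_LINK) (hSGN : S_SGN) (hAMALG : S_AMALG)
    (hPART : S_PART2) (hINF : S_INF) {I : Type} {K : I → Type} {R : Type} [∀ i, Group (K i)]
    (P : Sys I K R) {γ δ κ : R → I} {c : ∀ r, K (γ r)} {d : ∀ r, K (δ r)} {w : ∀ r, K (κ r)}
    (h : IsTwist P γ δ κ c d w) (hloc : ∀ i, LocInd (K i)) (hc : ∀ r, c r ≠ 1)
    (hd : ∀ r, d r ≠ 1) (hw : ∀ r, w r ≠ 1) (hκ : Function.Injective κ) (hsp : Sparse γ δ) :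
    LocInd P.Grp ∧ ∀ i, Function.Injective (P.inc i) := by
  refine hINF I K R P ?_ ?_
  · intro r k
    by_cases hk : k < 4
    · exact ⟨k, by rw [h.n]; exact hk, rfl⟩
    · refine ⟨3, by rw [h.n]; omega, ?_⟩
      rw [h.l3 r 3 le_rfl, h.l3 r k (by omega)]
  · intro I0
    refine fin_aux hCOARSE hLINK hSGN hAMALG hPART _ _ _ _ (on P (I0 : Set I)) _ _ _ _ _ _ rfl
      (h.on (I0 : Set I)) (fun i => hloc i.1) (fun r => hc r.1) (fun r => hd r.1)
      (fun r => hw r.1) (fun r r' hr => Subtype.ext (hκ (congrArg Subtype.val hr))) ?_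
    intro B D hB hD
    have h1 := hsp (B.image Subtype.val) (D.image Subtype.val) (hB.image _) (by
      intro e he
      obtain ⟨e', he', rfl⟩ := Finset.mem_image.1 he
      obtain ⟨h3, h4⟩ := hD e' he'
      exact ⟨Finset.mem_image_of_mem Subtype.val h3, Finset.mem_image_of_mem Subtype.val h4⟩)
    rwa [Finset.card_image_of_injective _ Subtype.val_injective,
      Finset.card_image_of_injective _ Subtype.val_injective] at h1

end Pool.Agent.H10.T
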