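import Pool.Agent.H10.T.Def

/-!
# T-INF: from finite index sets to arbitrary index sets
-/

set_option autoImplicit false

namespace Pool.Agent.H10.T.Inf

open Pool.Agent.H10.Inj (LocInd Joined)
open Pool.Agent.H10.W Pool.Agent.H10.T

variable {I : Type} {K : I → Type} {R : Type} [∀ i, Group (K i)]

/-- The letters of a path in `A`. -/
theorem letters {V Ω : Type} (act : V → Equiv.Perm Ω) (A : Finset (Ω × V)) (Q : V → Prop)
    (hQ : ∀ a ∈ A, Q a.2) : ∀ (W : List (V × Bool)) (p : Ω), PathIn act A W p →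
      ∀ x ∈ W, Q x.1
  | [], _, _ => fun x hx => absurd hx (List.not_mem_nil)
  | y :: W, p, h => by
    intro x hx
    obtain ⟨h1, h2⟩ := h
    rcases List.mem_cons.1 hx with rfl | hx
    · have h3 := hQ _ h1
      rw [side] at h3
      split_ifs at h3 <;> exact h3
    · exact letters act A Q hQ W _ h2 x hx

open Classical in
/-- The values of the letters in the group of the subsystem. -/
noncomputable def u (P : Sys I K R) (S : Set I) (x : Σ i, K i) : (on P S).Grp :=
  if h : x.1 ∈ S then (on P S).inc ⟨x.1, h⟩ x.2 else 1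

theorem u_of_mem (P : Sys I K R) {S : Set I} {x : Σ i, K i} (h : x.1 ∈ S) :
    u P S x = (on P S).inc ⟨x.1, h⟩ x.2 := dif_pos h

theorem u_of_not (P : Sys I K R) {S : Set I} {x : Σ i, K i} (h : x.1 ∉ S) : u P S x = 1 :=
  dif_neg h

/-- A given relator has the value `1`. -/
theorem word_one (P : Sys I K R) (r : R) :
    ((List.range (P.n r)).map fun j => P.inc (P.l r j).1 (P.l r j).2).prod = 1 := by
  have h2 : (QuotientGroup.mk' (Subgroup.normalClosure (Set.range P.word))) (P.word r) = 1 :=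
    (QuotientGroup.eq_one_iff _).2 (Subgroup.subset_normalClosure ⟨r, rfl⟩)
  rw [← h2, Sys.word, map_list_prod, List.map_map]
  congr 1

theorem rel_one (P : Sys I K R)
    (h1 : ∀ r k, ∃ k' < P.n r, (P.l r k').1 = (P.l r k).1) {Ω : Type}
    (act : (Σ i, K i) → Equiv.Perm Ω) (A : Finset (Ω × (Σ i, K i))) (S : Set I)
    (hS : ∀ a ∈ A, a.2.1 ∈ S) (W : List ((Σ i, K i) × Bool)) (hW : W ∈ P.Rel) (p : Ω)
    (hp : PathIn act A W p) : wval (u P S) W = 1 := by
  have hl := letters act A (fun x => x.1 ∈ S) hS W p hp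
  rcases hW with ⟨i, W', h2, rfl⟩ | ⟨r, rfl⟩
  · by_cases hi : i ∈ S
    · have h3 : wval (u P S) (W'.map fun x => ((⟨i, x.1⟩ : Σ i, K i), x.2)) =
          (on P S).inc ⟨i, hi⟩ (wval (fun x : K i => x) W') := by
        rw [wval, wval, map_list_prod, List.map_map, List.map_map]
        congr 1
        refine List.map_congr_left fun x _ => ?_
        obtain ⟨v, b⟩ := x
        have h4 : u P S ⟨i, v⟩ = (on P S).inc ⟨i, hi⟩ v := u_of_mem P hi
        cases b <;> simp [uval, h4]
      rw [h3, h2, map_one]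
    · rw [wval, List.map_map]
      refine List.prod_eq_one fun y hy => ?_
      obtain ⟨x, _, rfl⟩ := List.mem_map.1 hy
      obtain ⟨v, b⟩ := x
      have h4 : u P S ⟨i, v⟩ = 1 := u_of_not P hi
      cases b <;> simp [uval, h4]
  · have h3 : ∀ k, (P.l r k).1 ∈ S := by
      intro k
      obtain ⟨k', hk', he⟩ := h1 r k
      rw [← he]
      exact hl (P.l r k', true) (List.mem_map.2 ⟨k', List.mem_range.2 hk', rfl⟩)
    have h4 := word_one (on P S) ⟨r, h3⟩
    rw [wval, List.map_map, ← h4]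
    show _ = (List.map _ (List.range (P.n r))).prod
    congr 1
    refine List.map_congr_left fun k _ => ?_
    show u P S (P.l r k) = _
    rw [u_of_mem P (h3 k)]
    rfl

/-- Every component is developable over the group of the subsystem. -/
theorem dev (P : Sys I K R)
    (h1 : ∀ r k, ∃ k' < P.n r, (P.l r k').1 = (P.l r k).1) {Ω : Type}
    (act : (Σ i, K i) → Equiv.Perm Ω) (A : Finset (Ω × (Σ i, K i)))
    (J : Finset (Ω × List ((Σ i, K i) × Bool))) (hco : NoCoh P.Rel act A J) (S : Set I)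
    (hS : ∀ a ∈ A, a.2.1 ∈ S) (hL : LocInd (on P S).Grp) (q : Ω) :
    ∃ τ : Ω → (on P S).Grp, ∀ a ∈ A, Joined act A q a.1 →
      τ (act a.2 a.1) = τ a.1 * u P S a.2 := by
  refine (Thick.main _ hL _ Ω act (u P S) A q).resolve_right ?_
  rintro ⟨f, hf1, hf2, hf3⟩
  obtain ⟨g, hg⟩ := hco.2 f (by
    intro s hs
    obtain ⟨h2, h3, h4⟩ := hco.1 s hs
    exact hf2 _ _ h3 h4 (rel_one P h1 act A S hS s.2 h2 s.1 h3))
  exact hf3 ⟨g, fun a ha _ => hg a ha⟩

/-- The homomorphism from the group of the subsystem. -/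
noncomputable def hom (P : Sys I K R) (S : Set I) : (on P S).Grp →* P.Grp :=
  QuotientGroup.lift _ (Monoid.CoprodI.lift fun i : S => P.inc i.1) (by
    intro x hx
    have hle : Subgroup.normalClosure (Set.range (on P S).word) ≤
        (Monoid.CoprodI.lift fun i : S => P.inc i.1).ker := by
      refine Subgroup.normalClosure_le_normal ?_
      rintro _ ⟨r, rfl⟩
      show Monoid.CoprodI.lift (fun i : S => P.inc i.1) ((on P S).word r) = 1
      rw [Sys.word, map_list_prod, List.map_map, ← word_one P r.1]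
      congr 1
    exact hle hx)

theorem hom_inc (P : Sys I K R) (S : Set I) (i : S) (x : K i) :
    hom P S ((on P S).inc i x) = P.inc i.1 x := by
  show Monoid.CoprodI.lift (fun i : S => P.inc i.1) (Monoid.CoprodI.of x) = _
  rw [Monoid.CoprodI.lift_of]

theorem main : S_INF := by
  classical
  intro I K R _ P h1 h2
  obtain ⟨φ, hφ⟩ := ISO.main I K R P
  constructor
  · refine LocInd.of_injective φ.toMonoidHom φ.injective ?_
    by_contra hcon
    obtain ⟨Ω, act, A, J, hco, hDev⟩ := Data.main (Σ i, K i) P.Rel hcon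
    obtain ⟨I0, hI0⟩ : ∃ I0 : Finset I, I0 = A.image fun a => a.2.1 := ⟨_, rfl⟩
    have hS : ∀ a ∈ A, a.2.1 ∈ (I0 : Set I) := fun a ha => by
      rw [hI0]
      exact Finset.mem_coe.2 (Finset.mem_image_of_mem (fun a : Ω × (Σ i, K i) => a.2.1) ha)
    have hdev := dev P h1 act A J hco (I0 : Set I) hS (h2 I0).1
    choose τ hτ using hdev
    let st : Setoid Ω := Relation.EqvGen.setoid (fun p p' => ∃ x, (p, x) ∈ A ∧ p' = act x p)
    refine hDev ⟨fun p => φ (hom P (I0 : Set I) (τ (Quotient.out (Quotient.mk st p)) p)),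
      fun a ha => ?_⟩
    have h3 : Quotient.mk st (act a.2 a.1) = Quotient.mk st a.1 :=
      Quotient.sound (Relation.EqvGen.symm _ _ (Relation.EqvGen.rel _ _ ⟨a.2, ha, rfl⟩))
    beta_reduce
    rw [h3, hτ _ a ha (Quotient.mk_out (s := st) a.1), map_mul, map_mul]
    congr 1
    rw [u_of_mem P (hS a ha), hom_inc, hφ]
  · intro i
    rw [injective_iff_map_eq_one]
    intro x hx
    have hx1 : (PresentedGroup.of ⟨i, x⟩ : PG P.Rel) = 1 := by
      rw [← hφ, hx, map_one]
    obtain ⟨Ω, act, A, J, b, hco, hpath, hcl⟩ :=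
      Null.main (Σ i, K i) P.Rel [(⟨i, x⟩, true)] hx1
    obtain ⟨I0, hI0⟩ : ∃ I0 : Finset I, I0 = A.image fun a => a.2.1 := ⟨_, rfl⟩
    have hS : ∀ a ∈ A, a.2.1 ∈ (I0 : Set I) := fun a ha => by
      rw [hI0]
      exact Finset.mem_coe.2 (Finset.mem_image_of_mem (fun a : Ω × (Σ i, K i) => a.2.1) ha)
    obtain ⟨τ, hτ⟩ := dev P h1 act A J hco (I0 : Set I) hS (h2 I0).1 b
    have h5 : (b, (⟨i, x⟩ : Σ i, K i)) ∈ A := by
      have := hpath.1
      simpa [side] using this
    have h6 := hτ _ h5 (Relation.EqvGen.refl _)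
    have h7 : act (⟨i, x⟩ : Σ i, K i) b = b := by
      have := hcl
      simpa [ev, step] using this
    simp only at h6
    rw [h7, u_of_mem P (hS _ h5)] at h6
    have h8 := mul_eq_left.1 h6.symm
    exact (injective_iff_map_eq_one _).1 ((h2 I0).2 ⟨i, hS _ h5⟩) x h8

end Pool.Agent.H10.T.Inf
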