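import Pool.Agent.H10.T.Def

/-!
# The link condition
-/

set_option autoImplicit false

namespace Pool.Agent.H10.T.Link

open Classical in
theorem main : S_LINK := by
  intro I Ty vt T hT h1 h2
  set Y : Finset (Ty × Bool) := T ×ˢ (Finset.univ : Finset Bool) with hY
  set Im : Finset (I × Bool) := Y.image fun y => vt y.1 y.2 with hIm
  let Vb : Bool → Finset I := fun β => (Im.filter fun v => v.2 = β).image Prod.fst
  let Tb : Bool → Finset Ty := fun β => T.filter fun x => ∀ t, (vt x t).2 = β
  have hmemIm : ∀ x ∈ T, ∀ t, vt x t ∈ Im := by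
    intro x hx t
    rw [hIm, Finset.mem_image]
    exact ⟨(x, t), by rw [hY]; exact Finset.mem_product.2 ⟨hx, Finset.mem_univ _⟩, rfl⟩
  have hVcard : ∀ β, (Vb β).card = (Im.filter fun v => v.2 = β).card := by
    intro β
    refine Finset.card_image_of_injOn ?_
    intro a ha b hb hab
    have ha' := (Finset.mem_filter.1 (Finset.mem_coe.1 ha)).2
    have hb' := (Finset.mem_filter.1 (Finset.mem_coe.1 hb)).2
    exact Prod.ext hab (ha'.trans hb'.symm)
  have hImcard : Im.card = (Vb true).card + (Vb false).card := by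
    rw [hVcard, hVcard, ← Finset.card_filter_add_card_filter_not (s := Im) (fun v => v.2 = true)]
    congr 2
    ext v
    simp
  have hTV : ∀ β, (Vb β).Nonempty → (Tb β).card + 1 ≤ (Vb β).card := by
    intro β hβ
    refine h2 β (Tb β) (Vb β) (Finset.filter_subset _ _) hβ ?_
    intro x hx t
    have hx' := Finset.mem_filter.1 hx
    refine ⟨hx'.2 t, ?_⟩
    refine Finset.mem_image.2 ⟨vt x t, Finset.mem_filter.2 ⟨hmemIm x hx'.1 t, hx'.2 t⟩, rfl⟩
  have hsum : ∑ x ∈ T, (if (vt x true).2 = (vt x false).2 then (1 : ℝ) else 0) =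
      (Tb true).card + (Tb false).card := by
    rw [← Finset.natCast_card_filter]
    rw [← Nat.cast_add]
    congr 1
    rw [← Finset.card_union_of_disjoint]
    · congr 1
      ext x
      simp only [Tb, Finset.mem_filter, Finset.mem_union, Bool.forall_bool]
      constructor
      · rintro ⟨hx, he⟩
        cases h : (vt x true).2
        · right; exact ⟨hx, he.symm.trans h, rfl⟩
        · left; exact ⟨hx, he.symm.trans h, rfl⟩
      · rintro (⟨hx, he, he'⟩ | ⟨hx, he, he'⟩)
        · exact ⟨hx, he'.trans he.symm⟩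
        · exact ⟨hx, he'.trans he.symm⟩
    · rw [Finset.disjoint_left]
      intro x hx hx'
      have h3 := (Finset.mem_filter.1 hx).2 true
      have h4 := (Finset.mem_filter.1 hx').2 true
      rw [h3] at h4
      exact absurd h4 (by decide)
  have hne : ∀ β, (Vb β).Nonempty := by
    intro β
    by_contra hemp
    rw [Finset.not_nonempty_iff_eq_empty] at hemp
    have hdir : ∀ x ∈ T, ∀ t, (vt x t).2 = !β := by
      intro x hx t
      by_contra hc
      have h5 : (vt x t).2 = β := by
        cases hb : (vt x t).2 <;> cases β <;> simp_all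
      have : (vt x t).1 ∈ Vb β :=
        Finset.mem_image.2 ⟨vt x t, Finset.mem_filter.2 ⟨hmemIm x hx t, h5⟩, rfl⟩
      rw [hemp] at this
      exact absurd this (Finset.notMem_empty _)
    have hTe : Tb (!β) = T := by
      apply Finset.filter_true_of_mem
      intro x hx t
      exact hdir x hx t
    obtain ⟨x0, hx0⟩ := hT
    have hVne : (Vb (!β)).Nonempty :=
      ⟨(vt x0 true).1, Finset.mem_image.2 ⟨vt x0 true, Finset.mem_filter.2
        ⟨hmemIm x0 hx0 true, hdir x0 hx0 true⟩, rfl⟩⟩
    have h6 := hTV (!β) hVne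
    rw [hTe] at h6
    have h7 : Y.card = 2 * T.card := by
      rw [hY, Finset.card_product]
      simp [mul_comm]
    have h8 : Y.card = ∑ i ∈ Vb (!β), (Y.filter fun y => (vt y.1 y.2).1 = i).card := by
      apply Finset.card_eq_sum_card_fiberwise
      intro y hy
      have hy' := Finset.mem_product.1 (Finset.mem_coe.1 hy)
      exact Finset.mem_coe.2 (Finset.mem_image.2 ⟨vt y.1 y.2, Finset.mem_filter.2
        ⟨hmemIm y.1 hy'.1 y.2, hdir y.1 hy'.1 y.2⟩, rfl⟩)
    have h9 : ∑ i ∈ Vb (!β), 2 ≤ ∑ i ∈ Vb (!β), (Y.filter fun y => (vt y.1 y.2).1 = i).card := by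
      apply Finset.sum_le_sum
      intro i hi
      have h10 := h1 i
      obtain ⟨v, hv, hvi⟩ := Finset.mem_image.1 hi
      obtain ⟨y, hy, hyv⟩ := Finset.mem_image.1 (Finset.mem_filter.1 hv).1
      have h11 : 0 < (Y.filter fun y => (vt y.1 y.2).1 = i).card := by
        apply Finset.card_pos.2
        refine ⟨y, Finset.mem_filter.2 ⟨hy, ?_⟩⟩
        rw [hyv]; exact hvi
      omega
    rw [← h8, h7] at h9
    simp only [Finset.sum_const, smul_eq_mul] at h9
    omega
  have h12 := hTV true (hne true)
  have h13 := hTV false (hne false)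
  rw [hsum, hImcard]
  have h14 : (Tb true).card + (Tb false).card + 2 ≤ (Vb true).card + (Vb false).card := by omega
  exact_mod_cast h14

end Pool.Agent.H10.T.Link
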