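import Pool.Agent.H10.T.Def
import Pool.Agent.H10.Inj.Part
import Pool.Agent.H10.Inj.Arb

/-!
# Stub T-PART: the partition of an injective labelled oriented forest, with unique outer labels
-/

set_option autoImplicit false
set_option linter.unusedSectionVars false

namespace Pool.Agent.H10.T.Part

open Finset
open Pool.Agent.H10.Inj (LocInd LOG Sparse Signed Inner Outer S_ARB)
open Pool.Agent.H10.Inj.Part

theorem main : S_PART2 := by
  have hARB : S_ARB := Pool.Agent.H10.Inj.Arb.main
  intro V E _ L hinj hs hV
  classical
  let _ : Fintype E := Fintype.ofInjective L.lab hinj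
  -- a partition into the smallest number of tight parts
  have hid : TP L (id : V → V) := by
    intro v
    have h1 : fib (id : V → V) {id v} = {v} := by
      ext w; rw [mem_fib]; simp
    have h2 : inE L ({v} : Finset V) = ∅ := by
      rw [eq_empty_iff_forall_notMem]
      intro e he
      rw [mem_inE] at he
      have := hs {v} {e} (singleton_nonempty v) (by
        intro x hx
        rw [mem_singleton.1 hx]
        exact ⟨he.1, he.2.1⟩)
      simp at this
    rw [h1, Tight, h2]
    simp
  have hidc : 2 ≤ (parts (id : V → V)).card := by
    have : parts (id : V → V) = univ := by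
      ext v; simp [mem_parts]
    rw [this, card_univ]
    exact hV
  obtain ⟨f, hf, hfmin⟩ := exists_min_image
    ((univ : Finset (V → V)).filter fun f => TP L f ∧ 2 ≤ (parts f).card)
    (fun f => (parts f).card) ⟨id, mem_filter.2 ⟨mem_univ _, hid, hidc⟩⟩
  obtain ⟨-, hfT, hf2⟩ := mem_filter.1 hf
  have hmin : ∀ g : V → V, TP L g → 2 ≤ (parts g).card → (parts f).card ≤ (parts g).card :=
    fun g h1 h2 => hfmin g (mem_filter.2 ⟨mem_univ _, h1, h2⟩)
  have hpart : ∀ v, f v ∈ parts f := fun v => mem_parts.2 ⟨v, rfl⟩
  have hinner : ∀ e, f (L.ini e) = f (L.ter e) → Inner L f e := fun e he =>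
    ⟨(inner_lab hs hfT he).symm, he ▸ (inner_lab hs hfT he).symm⟩
  by_cases hcase : ∃ e₀, f (L.ini e₀) ≠ f (L.ter e₀) ∧
      (f (L.lab e₀) = f (L.ini e₀) ∨ f (L.lab e₀) = f (L.ter e₀))
  · obtain ⟨e₀, h1, h2⟩ := hcase
    right
    set U : Finset V := {f (L.ini e₀), f (L.ter e₀)} with hU
    have hUP : U ⊆ parts f := by
      intro x hx
      rw [hU, mem_insert, mem_singleton] at hx
      rcases hx with rfl | rfl <;> exact hpart _
    have hUc : U.card = 2 := card_pair h1
    have hi : f (L.ini e₀) ∈ U := by simp [hU]
    have ht : f (L.ter e₀) ∈ U := by simp [hU]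
    have hl : f (L.lab e₀) ∈ U := by
      rcases h2 with h2 | h2
      · rw [h2]; exact hi
      · rw [h2]; exact ht
    have hT := tight_union hs hfT hUP ⟨_, hi⟩ (D := {e₀}) (by
      intro e he
      rw [mem_singleton.1 he]
      exact ⟨h1, hi, ht, hl⟩) (by rw [hUc, card_singleton])
    have hUeq := merge hfT hmin hUP (by omega) hT
    refine ⟨fun v => decide (f v = f (L.ini e₀)), e₀, ?_, ?_⟩
    · simp only [decide_true]
      intro h
      exact h1 (of_decide_eq_true h.symm).symm
    · intro e he
      have h3 : f (L.ini e) = f (L.ter e) := by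
        by_contra hne
        have h4 := quot_sparse hs hfT (U := U) hUP ⟨_, hi⟩ (D := {e, e₀}) (by
          intro x hx
          rw [mem_insert, mem_singleton] at hx
          rcases hx with rfl | rfl
          · exact ⟨hne, hUeq ▸ hpart _, hUeq ▸ hpart _⟩
          · exact ⟨h1, hi, ht⟩)
        rw [card_pair he, hUc] at h4
        omega
      have h4 := hinner e h3
      exact ⟨by simp only [h4.1], by simp only [h4.2]⟩
  · left
    push Not at hcase
    have houter : ∀ e, f (L.ini e) ≠ f (L.ter e) → Outer L f e := fun e he =>
      ⟨fun h => (hcase e he).1 h.symm, fun h => (hcase e he).2 h.symm⟩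
    -- the edge of a part
    set NI : Finset E := univ.filter fun e => f (L.ini e) ≠ f (L.ter e) with hNI
    have mNI : ∀ e, e ∈ NI ↔ f (L.ini e) ≠ f (L.ter e) := fun e => by
      rw [hNI, mem_filter]; simp
    set K : Finset V := NI.image fun e => f (L.lab e) with hK
    have hKex : ∀ k ∈ K, ∃ e, e ∈ NI ∧ f (L.lab e) = k := fun k hk => mem_image.1 hk
    have hUNI : ∀ e e', Outer L f e → Outer L f e' → f (L.lab e) = f (L.lab e') → e = e' := by
      intro e e' ho ho' h
      exact lab_unique hinj hfT (fun h1 => ho.1 (inner_lab hs hfT h1).symm)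
        (fun h1 => ho'.1 (inner_lab hs hfT h1).symm) h
    rcases isEmpty_or_nonempty E with hE | hE
    · refine ⟨V, f, fun _ => true, ?_, ⟨?_, ?_⟩, hUNI⟩
      · intro i
        by_contra hcon
        push Not at hcon
        have : parts f ⊆ {i} := by
          intro j hj
          obtain ⟨v, rfl⟩ := mem_parts.1 hj
          exact mem_singleton.2 (hcon v)
        have := card_le_card this
        rw [card_singleton] at this
        omega
      · exact fun e => isEmptyElim e
      · intro c B D hBne _
        have : D = ∅ := eq_empty_of_forall_notMem fun e => isEmptyElim e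
        rw [this, card_empty]
        have := hBne.card_pos
        omega
    choose! ed hed1 hed2 using hKex
    have hKP : K ⊆ parts f := by
      intro k hk
      rw [← hed2 k hk]
      exact hpart _
    set a : V → V := fun k => f (L.ini (ed k)) with ha
    set b : V → V := fun k => f (L.ter (ed k)) with hb
    have hcut : ∀ U : Finset V, U ⊆ K → U.Nonempty →
        (U.filter fun k => a k ∈ U).card + (U.filter fun k => b k ∈ U).card + 2 ≤ 2 * U.card := by
      intro U hUK hne
      have hUP : U ⊆ parts f := hUK.trans hKP
      have hedinj : Set.InjOn ed (U : Set V) := by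
        intro x hx y hy h
        rw [← hed2 x (hUK hx), ← hed2 y (hUK hy), h]
      set A := U.filter fun k => a k ∈ U with hA
      set B := U.filter fun k => b k ∈ U with hB
      have hAB : (A ∩ B).card + 1 ≤ U.card := by
        have h1 := quot_sparse hs hfT hUP hne (D := (A ∩ B).image ed) (by
          intro e he
          obtain ⟨k, hk, rfl⟩ := mem_image.1 he
          obtain ⟨hk1, hk2⟩ := mem_inter.1 hk
          rw [hA, mem_filter] at hk1
          rw [hB, mem_filter] at hk2
          exact ⟨(mNI _).1 (hed1 k (hUK hk1.1)), hk1.2, hk2.2⟩)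
        rwa [card_image_of_injOn (hedinj.mono (by
          intro k hk
          exact (mem_filter.1 (mem_inter.1 hk).1).1))] at h1
      have hun : (A ∪ B).card ≤ U.card :=
        card_le_card (union_subset (filter_subset _ _) (filter_subset _ _))
      have hsum := card_union_add_card_inter A B
      by_contra hlt
      have h3 : (A ∩ B).card + 1 = U.card := by omega
      have h4 : (A ∪ B).card = U.card := by omega
      have hT := tight_union hs hfT hUP hne (D := (A ∩ B).image ed) (by
          intro e he
          obtain ⟨k, hk, rfl⟩ := mem_image.1 he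
          obtain ⟨hk1, hk2⟩ := mem_inter.1 hk
          rw [hA, mem_filter] at hk1
          rw [hB, mem_filter] at hk2
          refine ⟨(mNI _).1 (hed1 k (hUK hk1.1)), hk1.2, hk2.2, ?_⟩
          rw [hed2 k (hUK hk1.1)]
          exact hk1.1) (by
        rw [card_image_of_injOn (hedinj.mono (by
          intro k hk
          exact (mem_filter.1 (mem_inter.1 hk).1).1))]
        omega)
      -- a vertex of `U` with exactly one of the arcs inside
      obtain ⟨k, hkU, hkn⟩ : ∃ k ∈ U, k ∉ A ∩ B := by
        by_contra hcon
        push Not at hcon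
        have := card_le_card (show U ⊆ A ∩ B from hcon)
        omega
      have hUne : U ≠ parts f := by
        intro h
        refine hkn (mem_inter.2 ⟨mem_filter.2 ⟨hkU, ?_⟩, mem_filter.2 ⟨hkU, ?_⟩⟩)
        · rw [h]; exact hpart _
        · rw [h]; exact hpart _
      by_cases h2U : 2 ≤ U.card
      · exact hUne (merge hfT hmin hUP h2U hT)
      · have h5 : U.card = 1 := by
          have := hne.card_pos
          omega
        obtain ⟨u, hu⟩ := card_eq_one.1 h5
        have h6 : (A ∪ B).Nonempty := card_pos.1 (by omega)
        obtain ⟨k', hk'⟩ := h6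
        have hk'U : k' ∈ U := union_subset (filter_subset _ _) (filter_subset _ _) hk'
        have hk'u : k' = u := by rw [hu] at hk'U; exact mem_singleton.1 hk'U
        have ho := houter (ed k') ((mNI _).1 (hed1 k' (hUK hk'U)))
        rw [Outer, hed2 k' (hUK hk'U)] at ho
        rcases mem_union.1 hk' with h | h
        · have := (mem_filter.1 h).2
          rw [hu, mem_singleton] at this
          exact ho.1 (this.trans hk'u.symm)
        · have := (mem_filter.1 h).2
          rw [hu, mem_singleton] at this
          exact ho.2 (this.trans hk'u.symm)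
    obtain ⟨σ, hσ⟩ := hARB V K a b hcut
    refine ⟨V, f, σ, ?_, ⟨?_, ?_⟩, hUNI⟩
    · intro i
      by_contra hcon
      push Not at hcon
      have : parts f ⊆ {i} := by
        intro j hj
        obtain ⟨v, rfl⟩ := mem_parts.1 hj
        exact mem_singleton.2 (hcon v)
      have := card_le_card this
      rw [card_singleton] at this
      omega
    · intro e
      by_cases h : f (L.ini e) = f (L.ter e)
      · exact Or.inl (hinner e h)
      · exact Or.inr (houter e h)
    · intro c B D hBne hD
      by_contra hlt
      have hNID : ∀ e ∈ D, e ∈ NI := by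
        intro e he
        rw [mNI]
        intro h
        have h1 := (hD e he).1
        exact h1.1 (hinner e h).1
      have hinjD : Set.InjOn (fun e => f (L.lab e)) (D : Set E) := by
        intro x hx y hy h
        exact lab_unique hinj hfT ((mNI x).1 (hNID x hx)) ((mNI y).1 (hNID y hy)) h
      have himg : D.image (fun e => f (L.lab e)) ⊆ B := by
        intro j hj
        obtain ⟨e, he, rfl⟩ := mem_image.1 hj
        exact (hD e he).2.1
      have heq : D.image (fun e => f (L.lab e)) = B := by
        refine eq_of_subset_of_card_le himg ?_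
        rw [card_image_of_injOn hinjD]
        omega
      have hBK : B ⊆ K := by
        rw [← heq]
        exact image_subset_image hNID
      have hmem : ∀ k ∈ B, (if σ k = c then a k else b k) ∈ B := by
        intro k hk
        rw [← heq] at hk
        obtain ⟨e, he, hek⟩ := mem_image.1 hk
        have hkK : k ∈ K := mem_image.2 ⟨e, hNID e he, hek⟩
        have hee : ed k = e := lab_unique hinj hfT ((mNI _).1 (hed1 k hkK))
          ((mNI e).1 (hNID e he)) (by rw [hed2 k hkK, hek])
        have h1 := (hD e he).2.2
        rw [hek] at h1
        show (if σ k = c then f (L.ini (ed k)) else f (L.ter (ed k))) ∈ B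
        rw [hee]
        exact h1
      obtain ⟨⟨k1, hk1, hk1'⟩, ⟨k2, hk2, hk2'⟩⟩ := hσ B hBK hBne
      rcases c with _ | _
      · have := hmem k2 hk2
        rcases hs2 : σ k2 with _ | _ <;> rw [hs2] at this hk2' <;> simp_all
      · exact hk1' (hmem k1 hk1)

end Pool.Agent.H10.T.Part
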