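import Pool.Agent.H10.T.Def
import Pool.Agent.H10.W.SIGN

/-!
# Stub T-SGN: signs of finitely many nontrivial elements, with one prescribed sign
-/

set_option autoImplicit false

namespace Pool.Agent.H10.T.Sgn

open Pool.Agent.H10.Inj (LocInd LOG Sparse Signed Inner Outer)

theorem main : S_SGN := by
  intro Γ _ hΓ X _ x hx p s hp
  obtain ⟨n, ⟨e⟩⟩ := Finite.exists_equiv_fin X
  obtain ⟨σ, hσ⟩ := W.SIGN.main Γ hΓ n (fun j => x (e.symm j)) (fun j => hx _)
  set τ : X → Bool := fun a => σ (e a) with hτ
  have hr : (Set.range fun j => if σ j = true then x (e.symm j) else (x (e.symm j))⁻¹) =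
      Set.range fun a => if τ a = true then x a else (x a)⁻¹ := by
    ext z
    constructor
    · rintro ⟨j, rfl⟩
      exact ⟨e.symm j, by simp [hτ]⟩
    · rintro ⟨a, rfl⟩
      exact ⟨e a, by simp [hτ]⟩
  rw [hr] at hσ
  by_cases hcase : ∀ a, p a → τ a = s
  · exact ⟨τ, hcase, hσ⟩
  · push Not at hcase
    obtain ⟨a, ha, has⟩ := hcase
    refine ⟨fun a => !τ a, fun a' ha' => ?_, fun h1 => hσ ?_⟩
    · rw [hp a' a ha' ha]
      show (!τ a) = s
      revert has
      cases τ a <;> cases s <;> simp
    · have key : ∀ z ∈ Subsemigroup.closure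
          (Set.range fun a => if (!τ a) = true then x a else (x a)⁻¹),
          z⁻¹ ∈ Subsemigroup.closure (Set.range fun a => if τ a = true then x a else (x a)⁻¹) := by
        intro z hz
        induction hz using Subsemigroup.closure_induction with
        | mem z hz =>
          obtain ⟨b, rfl⟩ := hz
          refine Subsemigroup.subset_closure ⟨b, ?_⟩
          cases hb : τ b <;> simp [hb]
        | mul z w _ _ ih1 ih2 =>
          rw [mul_inv_rev]
          exact mul_mem ih2 ih1
      have := key 1 h1
      rwa [inv_one] at this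

end Pool.Agent.H10.T.Sgn
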