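import Pool.Agent.H10.T.Fin
import Pool.Agent.H10.T.Amalg
import Pool.Agent.H10.T.Coarse
import Pool.Agent.H10.T.Inf
import Pool.Agent.H10.T.Link
import Pool.Agent.H10.T.Part
import Pool.Agent.H10.T.Sgn

/-!
# Injective labelled forests of locally indicable groups: the theorem
-/

set_option autoImplicit false

namespace Pool.Agent.H10.T

open Pool.Agent.H10.Inj (LocInd Sparse)
open Pool.Agent.H10.W

/-- A labelled graph of groups `K i`, `i : I`: the edge `e` joins `γ e` and `δ e` and carries the label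
`κ e`; it comes with elements `c e`, `d e` and `w e` of the groups at these three vertices. -/
structure Twist (I : Type) (K : I → Type) (E : Type) where
  γ : E → I
  δ : E → I
  κ : E → I
  c : ∀ e, K (γ e)
  d : ∀ e, K (δ e)
  w : ∀ e, K (κ e)

variable {I : Type} {K : I → Type} {E : Type} [∀ i, Group (K i)]

/-- The relator `c w d⁻¹ w⁻¹` of the edge `e`. -/
noncomputable def Twist.rel (F : Twist I K E) (e : E) : Monoid.CoprodI K :=
  Monoid.CoprodI.of (F.c e) * Monoid.CoprodI.of (F.w e) * (Monoid.CoprodI.of (F.d e))⁻¹ *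
    (Monoid.CoprodI.of (F.w e))⁻¹

/-- The quotient of the free product of the groups `K i` by the relations `c w = w d` of the edges. -/
abbrev Twist.Grp (F : Twist I K E) : Type :=
  Monoid.CoprodI K ⧸ Subgroup.normalClosure (Set.range F.rel)

/-- The homomorphism from `K i` to the group. -/
noncomputable def Twist.inc (F : Twist I K E) (i : I) : K i →* F.Grp :=
  (QuotientGroup.mk' _).comp Monoid.CoprodI.of

/-- the system of relators -/
def Twist.sys (F : Twist I K E) : Sys I K E where
  n _ := 4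
  l e k := if k = 0 then ⟨F.γ e, F.c e⟩ else if k = 1 then ⟨F.κ e, F.w e⟩ else
    if k = 2 then ⟨F.δ e, (F.d e)⁻¹⟩ else ⟨F.κ e, (F.w e)⁻¹⟩

theorem Twist.isTwist (F : Twist I K E) : IsTwist F.sys F.γ F.δ F.κ F.c F.d F.w where
  n _ := rfl
  l0 _ := rfl
  l1 _ := rfl
  l2 _ := rfl
  l3 e k hk := by
    show (if k = 0 then (⟨F.γ e, F.c e⟩ : Σ i, K i) else if k = 1 then ⟨F.κ e, F.w e⟩ else
      if k = 2 then ⟨F.δ e, (F.d e)⁻¹⟩ else ⟨F.κ e, (F.w e)⁻¹⟩) = _
    rw [if_neg (by omega), if_neg (by omega), if_neg (by omega)]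

theorem Twist.word_eq (F : Twist I K E) : F.sys.word = F.rel := by
  funext e
  have h1 : F.sys.word e = ([0, 1, 2, 3].map fun j =>
      Monoid.CoprodI.of (F.sys.l e j).2).prod := rfl
  rw [h1]
  simp only [List.map_cons, List.map_nil, List.prod_cons, List.prod_nil, mul_one]
  show Monoid.CoprodI.of (F.c e) * (Monoid.CoprodI.of (F.w e) *
    (Monoid.CoprodI.of (F.d e)⁻¹ * Monoid.CoprodI.of (F.w e)⁻¹)) = F.rel e
  rw [map_inv, map_inv]
  unfold Twist.rel
  group

/-- **Injective labelled forests of locally indicable groups.** -/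
theorem Twist.locInd (F : Twist I K E) (hloc : ∀ i, LocInd (K i)) (hc : ∀ e, F.c e ≠ 1)
    (hd : ∀ e, F.d e ≠ 1) (hw : ∀ e, F.w e ≠ 1) (hκ : Function.Injective F.κ)
    (hsp : Sparse F.γ F.δ) : LocInd F.Grp ∧ ∀ i, Function.Injective (F.inc i) := by
  have h1 := T.main Coarse.main Link.main Sgn.main Amalg.main Part.main Inf.main F.sys F.isTwist
    hloc hc hd hw hκ hsp
  have key : ∀ (f : E → Monoid.CoprodI K), f = F.rel →
      (LocInd (Monoid.CoprodI K ⧸ Subgroup.normalClosure (Set.range f)) ∧ ∀ i, Function.Injective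
        ((QuotientGroup.mk' (Subgroup.normalClosure (Set.range f))).comp
          (Monoid.CoprodI.of : K i →* Monoid.CoprodI K))) →
      LocInd F.Grp ∧ ∀ i, Function.Injective (F.inc i) := by
    rintro _ rfl h
    exact h
  exact key _ F.word_eq h1

end Pool.Agent.H10.T
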