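import Pool.Agent.H10.T.Def

/-!
# The signed step
-/

set_option autoImplicit false
set_option linter.unusedSectionVars false

namespace Pool.Agent.H10.T

open Pool.Agent.H10.Inj (LocInd LOG Sparse Signed Inner Outer)
open Pool.Agent.H10.W

open Classical

variable {J : Type} {K : J → Type} {R : Type} [∀ j, Group (K j)]

/-- the elements -/
def elt {γ δ κ : R → J} (c : ∀ r, K (γ r)) (d : ∀ r, K (δ r)) (w : ∀ r, K (κ r)) :
    R × Fin 3 → Σ j, K j
  | (r, 0) => ⟨γ r, c r⟩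
  | (r, 1) => ⟨κ r, w r⟩
  | (r, 2) => ⟨δ r, d r⟩

/-- the signs of the letters -/
def sgT (σ : R × Fin 3 → Bool) (r : R) : ℕ → Bool
  | 0 => σ (r, 0)
  | 1 => σ (r, 1)
  | 2 => !σ (r, 2)
  | _ => !σ (r, 1)

theorem vertT {P : Sys J K R} {γ δ κ : R → J} {c : ∀ r, K (γ r)} {d : ∀ r, K (δ r)}
    {w : ∀ r, K (κ r)} (h : IsTwist P γ δ κ c d w) (σ : R × Fin 3 → Bool) (r : R) :
    P.vert (sgT σ) (r, 0) true = (γ r, σ (r, 0)) ∧ P.vert (sgT σ) (r, 0) false = (κ r, σ (r, 1)) ∧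
    P.vert (sgT σ) (r, 1) true = (κ r, σ (r, 1)) ∧
      P.vert (sgT σ) (r, 1) false = (γ r, !σ (r, 0)) ∧
    P.vert (sgT σ) (r, 2) true = (δ r, !σ (r, 2)) ∧
      P.vert (sgT σ) (r, 2) false = (κ r, !σ (r, 1)) ∧
    P.vert (sgT σ) (r, 3) true = (κ r, !σ (r, 1)) ∧
      P.vert (sgT σ) (r, 3) false = (δ r, σ (r, 2)) := by
  have hp0 : P.prev r 0 = 3 := by unfold Sys.prev; rw [if_pos rfl, h.n]
  have hp1 : P.prev r 1 = 0 := rfl
  have hp2 : P.prev r 2 = 1 := rfl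
  have hp3 : P.prev r 3 = 2 := rfl
  have e3 := h.l3 r 3 le_rfl
  refine ⟨?_, ?_, ?_, ?_, ?_, ?_, ?_, ?_⟩
  · unfold Sys.vert; rw [if_pos rfl]; simp only [h.l0 r]; rfl
  · unfold Sys.vert; rw [if_neg (by simp)]; simp only [hp0, e3]; simp [sgT]
  · unfold Sys.vert; rw [if_pos rfl]; simp only [h.l1 r]; rfl
  · unfold Sys.vert; rw [if_neg (by simp)]; simp only [hp1, h.l0 r]; simp [sgT]
  · unfold Sys.vert; rw [if_pos rfl]; simp only [h.l2 r]; rfl
  · unfold Sys.vert; rw [if_neg (by simp)]; simp only [hp2, h.l1 r]; simp [sgT]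
  · unfold Sys.vert; rw [if_pos rfl]; simp only [e3]; rfl
  · unfold Sys.vert; rw [if_neg (by simp)]; simp only [hp3, h.l2 r]; simp [sgT]

theorem ui_eq {x : Σ j, K j} {j : J} {y : K j} (h : x = ⟨j, y⟩) : ui j x = y := by
  subst h
  exact ui_mk j y

theorem ui_ne {x : Σ j, K j} {j : J} (h : x.1 = j) (hx : x.2 ≠ 1) : ui j x ≠ 1 := by
  obtain ⟨i, y⟩ := x
  have h' : i = j := h
  subst h'
  rw [ui_mk]
  exact hx

/-- **The signed step.** -/
theorem signed_step (hLINK : S_LINK) (hSGN : S_SGN) [Finite R] (P : Sys J K R) {γ δ κ : R → J}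
    {c : ∀ r, K (γ r)} {d : ∀ r, K (δ r)} {w : ∀ r, K (κ r)} (h : IsTwist P γ δ κ c d w)
    (hloc : ∀ j, LocInd (K j)) (hc : ∀ r, c r ≠ 1) (hd : ∀ r, d r ≠ 1) (hw : ∀ r, w r ≠ 1)
    (ε : J → Bool) (hκ : Function.Injective κ)
    (hf : ∀ (β : Bool) (B : Finset J) (D : Finset R), B.Nonempty →
      (∀ r ∈ D, κ r ∈ B ∧ (if ε (κ r) = β then γ r else δ r) ∈ B) → D.card + 1 ≤ B.card) :
    LocInd P.Grp ∧ ∀ j, Function.Injective (P.inc j) := by
  have helt : ∀ x : R × Fin 3, (elt c d w x).2 ≠ 1 := by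
    rintro ⟨r, a⟩
    fin_cases a
    · exact hc r
    · exact hw r
    · exact hd r
  have hsg : ∀ j : J, ∃ σ : {x : R × Fin 3 // (elt c d w x).1 = j} → Bool,
      (∀ a, a.1.2 = 1 → σ a = ε j) ∧ (1 : K j) ∉ Subsemigroup.closure
        (Set.range fun a => if σ a = true then ui j (elt c d w a.1)
          else (ui j (elt c d w a.1))⁻¹) := by
    intro j
    refine hSGN (K j) (hloc j) {x : R × Fin 3 // (elt c d w x).1 = j}
      (fun a => ui j (elt c d w a.1))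
      (fun a => ui_ne a.2 (helt a.1)) (fun a => a.1.2 = 1) (ε j) ?_
    rintro ⟨⟨r, a⟩, ha⟩ ⟨⟨r', a'⟩, ha'⟩ h1 h2
    simp only at h1 h2
    subst h1 h2
    have h3 : κ r = j := ha
    have h4 : κ r' = j := ha'
    have h5 := hκ (h3.trans h4.symm)
    subst h5
    rfl
  choose σs hσ1 hσ2 using hsg
  set σ : R × Fin 3 → Bool := fun x => σs (elt c d w x).1 ⟨x, rfl⟩ with hσ
  have hσe : ∀ (x : R × Fin 3) (j : J) (hx : (elt c d w x).1 = j), σs j ⟨x, hx⟩ = σ x := by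
    intro x j hx
    subst hx
    rfl
  have hσκ : ∀ r, σ (r, 1) = ε (κ r) := fun r => hσ1 _ ⟨(r, 1), rfl⟩ rfl
  have hposmem : ∀ (j : J) (x : K j) (a : R × Fin 3),
      (σ a = true ∧ elt c d w a = ⟨j, x⟩) ∨ (σ a = false ∧ elt c d w a = ⟨j, x⁻¹⟩) →
      x ∈ Set.range fun a : {x : R × Fin 3 // (elt c d w x).1 = j} =>
        if σs j a = true then ui j (elt c d w a.1) else (ui j (elt c d w a.1))⁻¹ := by
    rintro j x a (⟨h1, h2⟩ | ⟨h1, h2⟩)
    · have h3 : (elt c d w a).1 = j := congrArg Sigma.fst h2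
      refine ⟨⟨a, h3⟩, ?_⟩
      beta_reduce
      rw [hσe a j h3, h1, if_pos rfl, ui_eq h2]
    · have h3 : (elt c d w a).1 = j := congrArg Sigma.fst h2
      refine ⟨⟨a, h3⟩, ?_⟩
      beta_reduce
      rw [hσe a j h3, h1, if_neg (by simp), ui_eq h2, inv_inv]
  have hinv : ∀ (i : J) (y : K i) (j : J) (x : K j), (⟨i, y⁻¹⟩ : Σ j, K j) = ⟨j, x⟩ →
      (⟨i, y⟩ : Σ j, K j) = ⟨j, x⁻¹⟩ := by
    intro i y j x hyx
    have h1 : i = j := congrArg Sigma.fst hyx
    subst h1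
    have h2 : y⁻¹ = x := eq_of_heq (Sigma.mk.inj_iff.1 hyx).2
    rw [← h2, inv_inv]
  have htest : P.Test (sgT σ) (fun r k =>
      if (P.vert (sgT σ) (r, k) true).2 = (P.vert (sgT σ) (r, k) false).2 then 1 else 0) := by
    refine ⟨fun j h1 => hσ2 j ?_, fun r => ?_, fun T hT hT2 hT3 => ?_⟩
    · refine Subsemigroup.closure_mono ?_ h1
      rintro x ⟨r, k, hk, hx⟩
      rw [h.n] at hk
      interval_cases k
      · refine hposmem j x (r, 0) ?_
        rw [h.l0] at hx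
        exact hx
      · refine hposmem j x (r, 1) ?_
        rw [h.l1] at hx
        exact hx
      · refine hposmem j x (r, 2) ?_
        rw [h.l2] at hx
        rcases hx with ⟨h3, h4⟩ | ⟨h3, h4⟩
        · right
          refine ⟨?_, hinv _ _ _ _ h4⟩
          simpa [sgT] using h3
        · left
          refine ⟨?_, ?_⟩
          · simpa [sgT] using h3
          · have := hinv _ _ _ _ h4
            rw [inv_inv] at this
            exact this
      · refine hposmem j x (r, 1) ?_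
        rw [h.l3 r 3 le_rfl] at hx
        rcases hx with ⟨h3, h4⟩ | ⟨h3, h4⟩
        · right
          refine ⟨?_, hinv _ _ _ _ h4⟩
          simpa [sgT] using h3
        · left
          refine ⟨?_, ?_⟩
          · simpa [sgT] using h3
          · have := hinv _ _ _ _ h4
            rw [inv_inv] at this
            exact this
    · rw [h.n, Finset.sum_range_succ, Finset.sum_range_succ, Finset.sum_range_succ,
        Finset.sum_range_one]
      obtain ⟨v1, v2, v3, v4, v5, v6, v7, v8⟩ := vertT h σ r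
      rw [v1, v2, v3, v4, v5, v6, v7, v8]
      rcases σ (r, 0) with _ | _ <;> rcases σ (r, 1) with _ | _ <;>
        rcases σ (r, 2) with _ | _ <;> norm_num
    · refine hLINK J (R × ℕ) (P.vert (sgT σ)) T hT (fun i => by convert hT3 i) ?_
      intro β T' B hT' hB hTB
      have hk4 : ∀ x ∈ T', x.2 < 4 := fun x hx => by
        have := hT2 x (hT' hx)
        rwa [h.n] at this
      have hcase : ∀ x ∈ T', (x.2 = 0 ∧ σ (x.1, 0) = β ∧ σ (x.1, 1) = β ∧ γ x.1 ∈ B ∧ κ x.1 ∈ B) ∨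
          (x.2 = 1 ∧ (!σ (x.1, 0)) = β ∧ σ (x.1, 1) = β ∧ γ x.1 ∈ B ∧ κ x.1 ∈ B) ∨
          (x.2 = 2 ∧ (!σ (x.1, 2)) = β ∧ (!σ (x.1, 1)) = β ∧ δ x.1 ∈ B ∧ κ x.1 ∈ B) ∨
          (x.2 = 3 ∧ σ (x.1, 2) = β ∧ (!σ (x.1, 1)) = β ∧ δ x.1 ∈ B ∧ κ x.1 ∈ B) := by
        rintro ⟨r, k⟩ hx
        have hk : k < 4 := hk4 _ hx
        obtain ⟨v1, v2, v3, v4, v5, v6, v7, v8⟩ := vertT h σ r
        have ht := hTB _ hx true
        have hf' := hTB _ hx false
        interval_cases k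
        · rw [v1] at ht; rw [v2] at hf'
          exact Or.inl ⟨rfl, ht.1, hf'.1, ht.2, hf'.2⟩
        · rw [v3] at ht; rw [v4] at hf'
          exact Or.inr (Or.inl ⟨rfl, hf'.1, ht.1, hf'.2, ht.2⟩)
        · rw [v5] at ht; rw [v6] at hf'
          exact Or.inr (Or.inr (Or.inl ⟨rfl, ht.1, hf'.1, ht.2, hf'.2⟩))
        · rw [v7] at ht; rw [v8] at hf'
          exact Or.inr (Or.inr (Or.inr ⟨rfl, hf'.1, ht.1, hf'.2, ht.2⟩))
      have hinj : Set.InjOn Prod.fst (T' : Set (R × ℕ)) := by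
        rintro ⟨r, k⟩ hx ⟨r', k'⟩ hx' heq
        simp only at heq
        subst heq
        have c1 := hcase _ (Finset.mem_coe.1 hx)
        have c2 := hcase _ (Finset.mem_coe.1 hx')
        simp only at c1 c2
        have hkk : k = k' := by
          revert c1 c2
          rcases σ (r, 0) with _ | _ <;> rcases σ (r, 1) with _ | _ <;>
            rcases σ (r, 2) with _ | _ <;> rcases β with _ | _ <;> simp <;> intros <;> omega
        rw [hkk]
      have h5 := hf β B (T'.image Prod.fst) hB (by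
        intro r hr
        obtain ⟨x, hx, rfl⟩ := Finset.mem_image.1 hr
        rw [← hσκ x.1]
        rcases hcase x hx with ⟨-, h6, h7, h8, h9⟩ | ⟨-, h6, h7, h8, h9⟩ | ⟨-, h6, h7, h8, h9⟩ |
          ⟨-, h6, h7, h8, h9⟩
        · rw [if_pos h7]; exact ⟨h9, h8⟩
        · rw [if_pos h7]; exact ⟨h9, h8⟩
        · rw [if_neg (by rw [← h7]; simp)]; exact ⟨h9, h8⟩
        · rw [if_neg (by rw [← h7]; simp)]; exact ⟨h9, h8⟩)
      rwa [Finset.card_image_of_injOn hinj] at h5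
  exact W.test P _ _ htest hloc

end Pool.Agent.H10.T
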