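import Pool.Agent.H10.T.Def

/-!
# The universal property of the group of a system
-/

set_option autoImplicit false

namespace Pool.Agent.H10.T.Univ

open Pool.Agent.H10.W

variable {I : Type} {K : I → Type} {R : Type} [∀ i, Group (K i)]

theorem prod_inc (P : Sys I K R) (r : R) :
    ((List.range (P.n r)).map fun k => P.inc (P.l r k).1 (P.l r k).2).prod = 1 := by
  have h1 : (QuotientGroup.mk' (Subgroup.normalClosure (Set.range P.word))) (P.word r) = 1 := by
    rw [QuotientGroup.mk'_apply, QuotientGroup.eq_one_iff]
    exact Subgroup.subset_normalClosure ⟨r, rfl⟩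
  rw [Sys.word, map_list_prod, List.map_map] at h1
  exact h1

/-- The homomorphism from the group of the system. -/
noncomputable def lift {G : Type} [Group G] (P : Sys I K R) (f : ∀ i, K i →* G)
    (h : ∀ r, ((List.range (P.n r)).map fun k => f (P.l r k).1 (P.l r k).2).prod = 1) :
    P.Grp →* G :=
  QuotientGroup.lift _ (Monoid.CoprodI.lift f) (by
    have : Subgroup.normalClosure (Set.range P.word) ≤ (Monoid.CoprodI.lift f).ker := by
      refine Subgroup.normalClosure_le_normal ?_
      rintro _ ⟨r, rfl⟩
      rw [SetLike.mem_coe, MonoidHom.mem_ker, Sys.word, map_list_prod, List.map_map]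
      rw [← h r]
      congr 1
    intro x hx
    exact MonoidHom.mem_ker.1 (this hx))

theorem lift_inc {G : Type} [Group G] (P : Sys I K R) (f : ∀ i, K i →* G)
    (h : ∀ r, ((List.range (P.n r)).map fun k => f (P.l r k).1 (P.l r k).2).prod = 1)
    (i : I) (x : K i) : lift P f h (P.inc i x) = f i x := by
  simp [lift, Sys.inc]

theorem hom_ext {G : Type} [Group G] {P : Sys I K R} {φ ψ : P.Grp →* G}
    (h : ∀ i x, φ (P.inc i x) = ψ (P.inc i x)) : φ = ψ := by
  apply QuotientGroup.monoidHom_ext
  apply Monoid.CoprodI.ext_hom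
  intro i
  ext x
  exact h i x

end Pool.Agent.H10.T.Univ
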